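import Pool.Agent.W646.CI.Stm

set_option autoImplicit false

/-!
# Project CI: the total error tends to zero
-/

namespace Pool.Agent.W490.CI

open Filter Topology Set Pool.Agent.W646.CI

/-- the kernel -/
noncomputable def ker (τ : ℝ) (m : ℕ) : ℝ := Real.exp (-(τ - m) ^ 2 / 4)

theorem ker_pos (τ : ℝ) (m : ℕ) : 0 < ker τ m := Real.exp_pos _

/-- the comparison function -/
noncomputable def fz (k : ℤ) : ℝ := Real.exp (-|(k : ℝ)|)

theorem fz_summable : Summable fz := by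
  refine Summable.of_nat_of_neg ?_ ?_
  · refine Real.summable_exp_neg_nat.congr fun n => ?_
    simp [fz]
  · refine Real.summable_exp_neg_nat.congr fun n => ?_
    simp [fz]

theorem ker_le (τ : ℝ) (m : ℕ) : ker τ m ≤ Real.exp 2 * fz (⌊τ⌋ - m) := by
  unfold ker fz
  rw [← Real.exp_add]
  refine Real.exp_le_exp.2 ?_
  have h1 := Int.floor_le τ
  have h2 := Int.lt_floor_add_one τ
  have h3 : |((⌊τ⌋ - (m : ℤ) : ℤ) : ℝ)| ≤ |τ - m| + 1 := by
    push_cast
    have : (⌊τ⌋ : ℝ) - m = (τ - m) + ((⌊τ⌋ : ℝ) - τ) := by ring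
    rw [this]
    refine (abs_add_le _ _).trans ?_
    have : |(⌊τ⌋ : ℝ) - τ| ≤ 1 := by rw [abs_le]; constructor <;> linarith
    linarith
  have h4 : (τ - m) ^ 2 = |τ - m| ^ 2 := (sq_abs _).symm
  nlinarith [sq_nonneg (|τ - m| / 2 - 1)]

theorem sum_ker_le (τ : ℝ) (N : Finset ℕ) :
    ∑ m ∈ N, ker τ m ≤ Real.exp 2 * ∑' k : ℤ, fz k := by
  have h0 : ∀ k, 0 ≤ fz k := fun k => (Real.exp_pos _).le
  calc ∑ m ∈ N, ker τ m ≤ ∑ m ∈ N, Real.exp 2 * fz (⌊τ⌋ - m) :=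
        Finset.sum_le_sum fun m _ => ker_le τ m
    _ = Real.exp 2 * ∑ m ∈ N, fz (⌊τ⌋ - m) := by rw [Finset.mul_sum]
    _ = Real.exp 2 * ∑ k ∈ N.map ⟨fun m : ℕ => ⌊τ⌋ - (m : ℤ), fun a b h => by
          have : ⌊τ⌋ - (a : ℤ) = ⌊τ⌋ - (b : ℤ) := h
          omega⟩, fz k := by
        rw [Finset.sum_map]; rfl
    _ ≤ Real.exp 2 * ∑' k : ℤ, fz k := by
        refine mul_le_mul_of_nonneg_left ?_ (Real.exp_pos _).le
        exact fz_summable.sum_le_tsum _ (fun k _ => h0 k)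

theorem ker_tendsto (m : ℕ) : Tendsto (fun τ => ker τ m) atTop (𝓝 0) := by
  have h1 : Tendsto (fun τ : ℝ => Real.exp (1 + m) * Real.exp (-τ)) atTop (𝓝 0) := by
    have := (Real.tendsto_exp_neg_atTop_nhds_zero).const_mul (Real.exp (1 + m))
    rwa [mul_zero] at this
  refine squeeze_zero (fun τ => (ker_pos τ m).le) (fun τ => ?_) h1
  unfold ker
  rw [← Real.exp_add]
  refine Real.exp_le_exp.2 ?_
  nlinarith [sq_nonneg ((τ - m) / 2 - 1)]

/-- weights tending to zero -/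
theorem main_abs (b : ℕ → ℝ) (hb0 : ∀ m, 0 ≤ b m) (hb : Tendsto b atTop (𝓝 0)) :
    ∃ η : ℝ → ℝ, Tendsto η atTop (𝓝 0) ∧ (∀ τ, 0 ≤ η τ) ∧ (∃ M, ∀ τ, η τ ≤ M) ∧
      ∀ (τ : ℝ) (N : Finset ℕ), ∑ m ∈ N, b m * ker τ m ≤ η τ := by
  set F := Real.exp 2 * ∑' k : ℤ, fz k with hF
  have hF0 : 0 ≤ F := mul_nonneg (Real.exp_pos _).le (tsum_nonneg fun k => (Real.exp_pos _).le)
  obtain ⟨B, hB⟩ := hb.bddAbove_range
  have hB' : ∀ m, b m ≤ B := fun m => hB ⟨m, rfl⟩
  have hB0 : 0 ≤ B := (hb0 0).trans (hB' 0)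
  have hn : ∀ τ m, 0 ≤ b m * ker τ m := fun τ m => mul_nonneg (hb0 m) (ker_pos τ m).le
  have hfin : ∀ (τ : ℝ) (N : Finset ℕ), ∑ m ∈ N, b m * ker τ m ≤ B * F := by
    intro τ N
    calc ∑ m ∈ N, b m * ker τ m ≤ ∑ m ∈ N, B * ker τ m :=
          Finset.sum_le_sum fun m _ => mul_le_mul_of_nonneg_right (hB' m) (ker_pos τ m).le
      _ = B * ∑ m ∈ N, ker τ m := by rw [Finset.mul_sum]
      _ ≤ B * F := mul_le_mul_of_nonneg_left (sum_ker_le τ N) hB0
  have hs : ∀ τ, Summable fun m => b m * ker τ m := fun τ =>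
    summable_of_sum_le (hn τ) (hfin τ)
  refine ⟨fun τ => ∑' m, b m * ker τ m, ?_, fun τ => tsum_nonneg (hn τ), ⟨B * F, fun τ => ?_⟩,
    fun τ N => (hs τ).sum_le_tsum N (fun m _ => hn τ m)⟩
  · rw [Metric.tendsto_atTop]
    intro e he
    set e' := e / (2 * (F + 1)) with he'
    have he'0 : 0 < e' := by positivity
    obtain ⟨M, hM⟩ := (Filter.eventually_atTop.1 (hb.eventually (gt_mem_nhds he'0)))
    have ht : Tendsto (fun τ => ∑ m ∈ Finset.range M, B * ker τ m) atTop (𝓝 0) := by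
      have := tendsto_finsetSum (Finset.range M) (fun m _ => (ker_tendsto m).const_mul B)
      simpa using this
    obtain ⟨T, hT⟩ := (Filter.eventually_atTop.1 (ht.eventually (gt_mem_nhds (half_pos he))))
    refine ⟨T, fun τ hτ => ?_⟩
    rw [Real.dist_eq, sub_zero, abs_of_nonneg (tsum_nonneg (hn τ))]
    have h1 : ∑' m, b m * ker τ m ≤ ∑ m ∈ Finset.range M, B * ker τ m + e' * F := by
      refine (hs τ).tsum_le_of_sum_le fun N => ?_
      have h2 : ∀ m ∈ N, b m * ker τ m ≤ (if m < M then B * ker τ m else 0) + e' * ker τ m := by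
        intro m _
        have hk := (ker_pos τ m).le
        split_ifs with hm
        · have := mul_le_mul_of_nonneg_right (hB' m) hk
          have := mul_nonneg he'0.le hk
          linarith
        · rw [zero_add]
          exact mul_le_mul_of_nonneg_right (hM m (not_lt.1 hm)).le hk
      refine (Finset.sum_le_sum h2).trans ?_
      rw [Finset.sum_add_distrib, ← Finset.mul_sum]
      refine add_le_add ?_ (mul_le_mul_of_nonneg_left (sum_ker_le τ N) he'0.le)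
      rw [← Finset.sum_filter]
      refine Finset.sum_le_sum_of_subset_of_nonneg ?_ ?_
      · intro m hm
        exact Finset.mem_range.2 (Finset.mem_filter.1 hm).2
      · intro m _ _
        exact mul_nonneg hB0 (ker_pos τ m).le
    have h3 := hT τ hτ
    have h4 : e' * F < e / 2 := by
      rw [he', div_mul_eq_mul_div, div_lt_div_iff₀ (by positivity) (by norm_num)]
      nlinarith
    linarith
  · exact (hs τ).tsum_le_of_sum_le (hfin τ)

theorem b_tendsto (K : ℕ) (C : ℝ) (hK : 3 ≤ K) :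
    Tendsto (fun m : ℕ => C * (dl K m + (LL K m : ℝ) ^ 2 * Real.exp (-(m : ℝ) ^ K)) *
      ((m : ℝ) + 2) ^ (3 * K)) atTop (𝓝 0) := by
  have hx : Tendsto (fun m : ℕ => (m : ℝ) + 2) atTop atTop :=
    tendsto_atTop_add_const_right _ _ tendsto_natCast_atTop_atTop
  have t1 : Tendsto (fun m : ℕ => 16 * K * (((m : ℝ) + 2) ^ (16 * K))⁻¹) atTop (𝓝 0) := by
    have h1 : Tendsto (fun m : ℕ => (((m : ℝ) + 2) ^ (16 * K))⁻¹) atTop (𝓝 0) :=
      (tendsto_inv_atTop_zero.comp (tendsto_pow_atTop (by omega))).comp hx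
    have := h1.const_mul (16 * K : ℝ)
    rwa [mul_zero] at this
  have t2 : Tendsto (fun m : ℕ => ((m : ℝ) + 2) ^ (43 * K) * Real.exp (-(m : ℝ) ^ K)) atTop
      (𝓝 0) := by
    have h1 := ((Real.tendsto_pow_mul_exp_neg_atTop_nhds_zero (43 * K)).comp hx).const_mul
      (Real.exp 2)
    rw [mul_zero] at h1
    refine squeeze_zero (fun m => by positivity) (fun m => ?_) h1
    have h2 : Real.exp (-(m : ℝ) ^ K) ≤ Real.exp 2 * Real.exp (-((m : ℝ) + 2)) := by
      rw [← Real.exp_add]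
      refine Real.exp_le_exp.2 ?_
      have h3 : (m : ℝ) ≤ (m : ℝ) ^ K := by
        exact_mod_cast Nat.le_self_pow (by omega) m
      linarith
    calc ((m : ℝ) + 2) ^ (43 * K) * Real.exp (-(m : ℝ) ^ K)
        ≤ ((m : ℝ) + 2) ^ (43 * K) * (Real.exp 2 * Real.exp (-((m : ℝ) + 2))) := by gcongr
      _ = _ := by simp only [Function.comp_apply]; ring
  have t3 := (t1.add t2).const_mul C
  rw [add_zero, mul_zero] at t3
  refine t3.congr fun m => ?_
  have hm : (0 : ℝ) < (m : ℝ) + 2 := by positivity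
  have hL : (LL K m : ℝ) = ((m : ℝ) + 2) ^ (20 * K) := by
    unfold LL; push_cast; ring
  unfold dl
  rw [hL]
  have e1 : 16 * (K : ℝ) * (((m : ℝ) + 2) ^ (16 * K))⁻¹ =
      16 * K * ((m : ℝ) + 2) ^ K / ((m : ℝ) + 2) ^ (20 * K) * ((m : ℝ) + 2) ^ (3 * K) := by
    have e2 : ((m : ℝ) + 2) ^ (20 * K) =
        ((m : ℝ) + 2) ^ (16 * K) * (((m : ℝ) + 2) ^ K * ((m : ℝ) + 2) ^ (3 * K)) := by
      rw [← pow_add, ← pow_add]; congr 1; ring
    rw [e2]
    field_simp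
  have e3 : ((m : ℝ) + 2) ^ (43 * K) =
      (((m : ℝ) + 2) ^ (20 * K)) ^ 2 * ((m : ℝ) + 2) ^ (3 * K) := by
    rw [← pow_mul, ← pow_add]; congr 1; ring
  rw [e1, e3]
  ring

/-- **SUM** -/
theorem t_SUM : S_SUM := by
  intro K C hK hC
  obtain ⟨η, h1, h2, h3, h4⟩ := main_abs _ (fun m => by
    have : 0 ≤ dl K m := by unfold dl; positivity
    positivity) (b_tendsto K C hK)
  exact ⟨η, h1, h2, h3, h4⟩

end Pool.Agent.W490.CI
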